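import Mathlib
import Pool.Agent.Helper34.FreeCountLimit
import Pool.Agent.Helper34.FreeSemi

set_option autoImplicit false

/-!
For every rank `r ≥ 2` there is a finitely generated subsemigroup of the free group of rank `r` which
has density zero but whose automorphic closure consists of all nontrivial elements, and hence has
density one.
-/

namespace Pool.Agent.Results.MP_b831a3_al.AutClosureFull

open Filter Topology

/-- The proportion of the elements of length at most `n` of the free group of rank `r` that lie in
`S`; `FreeGroup.norm` is the length of the reduced word. -/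
noncomputable def ballProb (r : ℕ) (S : Set (FreeGroup (Fin r))) (n : ℕ) : ℝ :=
  ({w : FreeGroup (Fin r) | w ∈ S ∧ w.norm ≤ n}.ncard : ℝ) /
    ({w : FreeGroup (Fin r) | w.norm ≤ n}.ncard : ℝ)

/-- The automorphic closure of a subset: all images of its elements under automorphisms of the free
group. -/
def autClosure (r : ℕ) (S : Set (FreeGroup (Fin r))) : Set (FreeGroup (Fin r)) :=
  {w | ∃ φ : FreeGroup (Fin r) ≃* FreeGroup (Fin r), ∃ m ∈ S, φ m = w}

/-- For every rank `r ≥ 2` some finitely generated subsemigroup `M` has density `0`, while its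
automorphic closure is the set of all nontrivial elements, which has density `1`. -/
theorem result (r : ℕ) (hr : 2 ≤ r) :
    ∃ M : Subsemigroup (FreeGroup (Fin r)),
      (∃ T : Set (FreeGroup (Fin r)), T.Finite ∧ Subsemigroup.closure T = M) ∧
      Tendsto (ballProb r (M : Set (FreeGroup (Fin r)))) atTop (𝓝 0) ∧
      autClosure r (M : Set (FreeGroup (Fin r))) = {w | w ≠ 1} ∧
      Tendsto (ballProb r (autClosure r (M : Set (FreeGroup (Fin r))))) atTop (𝓝 1) := by
  obtain ⟨s, rfl⟩ : ∃ s, r = s + 2 := ⟨r - 2, by omega⟩
  have hAC : autClosure (s + 2) (Helper34.FreeSemi.M s : Set (FreeGroup (Fin (s + 2)))) =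
      {w | w ≠ 1} := Helper34.FreeSemi.AC_eq
  refine ⟨Helper34.FreeSemi.M s, ⟨Helper34.FreeSemi.gens s, Helper34.FreeSemi.gens_finite s, rfl⟩,
    ?_, hAC, ?_⟩
  · exact Helper34.FreeCount.ok_tendsto s _ (fun w hw => Helper34.FreeSemi.ok_of_mem hw)
  · rw [hAC]
    exact Helper34.FreeCount.ne_one_tendsto s

end Pool.Agent.Results.MP_b831a3_al.AutClosureFull
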